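import Pool.Agent.Q161.ESV.Stm3

/-!
# Project ESV (helper161), job RKM: the dependence on `B`
-/

set_option autoImplicit false

namespace Pool.Agent.Q153.ESV

open Pool.Agent.Q161.ESV

theorem rkm : S_RKM := by
  intro F _ _ n ρ B B' D hB hB' hfin
  have hle : SelV ρ B D ≤ SelV ρ B' D := by
    rintro c ⟨h1, h2⟩
    exact ⟨h1, fun l _ hl ψ => h2 l (fun h => hl (h.trans hB)) ψ⟩
  let f : HV ρ B D →ₗ[ℚ_[2]] HV ρ B' D := Submodule.mapQ _ _ (Submodule.inclusion hle) (fun x hx => hx)
  have hinj : Function.Injective f := by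
    rw [injective_iff_map_eq_zero]
    intro x
    obtain ⟨c, rfl⟩ := Submodule.mkQ_surjective _ x
    intro h
    have h1 : Submodule.Quotient.mk (p := (LinearMap.range (cobV ρ D)).comap (SelV ρ B' D).subtype)
        (Submodule.inclusion hle c) = 0 := h
    rw [Submodule.Quotient.mk_eq_zero] at h1
    exact (Submodule.Quotient.mk_eq_zero _).2 h1
  exact ⟨FiniteDimensional.of_injective f hinj, LinearMap.finrank_le_finrank_of_injective hinj⟩

end Pool.Agent.Q153.ESV
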